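import Pool.Agent.Q41.GT.Stm1

/-!
# Project GT (helper41), job G7: covariance of the leading coefficient
-/

set_option autoImplicit false

namespace Pool.Agent.Q182.GT

open Finset Polynomial FF
open Pool.Agent.Q41.GT
open Pool.Agent.Q41.SU

/-- `bd` commutes with ring homomorphisms -/
theorem bd_map {A B : Type*} [CommRing A] [CommRing B] (f : A →+* B) (a b : ℕ) (u v : II a b → A) :
    f (bd a b u v) = bd a b (fun l => f (u l)) (fun l => f (v l)) := by
  unfold bd
  rw [RingHom.map_det]
  congr 1
  ext l c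
  simp [Matrix.map_apply]

/-- the Moebius map over a field extension -/
def mbMap {E F : Type*} [Field E] [Field F] (f : E →+* F) (m : Mb E) : Mb F :=
  ⟨f m.α, f m.β, f m.γ, f m.δ⟩

theorem mbMap_den {E F : Type*} [Field E] [Field F] (f : E →+* F) (m : Mb E) (x : E) :
    (mbMap f m).den (f x) = f (m.den x) := by
  unfold Mb.den mbMap
  simp only [map_add, map_mul]

theorem mbMap_det {E F : Type*} [Field E] [Field F] (f : E →+* F) (m : Mb E) :
    (mbMap f m).det = f m.det := by
  unfold Mb.det mbMap
  simp only [map_sub, map_mul]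

theorem mbMap_app {E F : Type*} [Field E] [Field F] (f : E →+* F) (m : Mb E) (x : E) :
    (mbMap f m).app (f x) = f (m.app x) := by
  unfold Mb.app
  rw [mbMap_den, map_div₀]
  unfold mbMap
  simp only [map_add, map_mul]

theorem tay_const {k K : Type*} [Field k] [Field K] [Algebra k K] (D : Derivation k K K) (x : K) :
    PowerSeries.constantCoeff (tay D x) = x := by
  unfold tay
  rw [← PowerSeries.coeff_zero_eq_constantCoeff_apply, PowerSeries.coeff_mk]
  simp

theorem coeff_of_dvd {K : Type*} [Field K] (c : ℕ) (P Q : PowerSeries K)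
    (h : (PowerSeries.X : PowerSeries K) ^ c ∣ P) :
    PowerSeries.coeff c (P * Q) = PowerSeries.coeff c P * PowerSeries.constantCoeff Q := by
  obtain ⟨R, rfl⟩ := h
  have h1 : ∀ Z : PowerSeries K, PowerSeries.coeff c ((PowerSeries.X : PowerSeries K) ^ c * Z) =
      PowerSeries.constantCoeff Z := by
    intro Z
    have := PowerSeries.coeff_X_pow_mul Z c 0
    rw [zero_add] at this
    rw [this, PowerSeries.coeff_zero_eq_constantCoeff_apply]
  rw [mul_assoc, h1, h1, map_mul]

theorem cvl (h1 : S_cov.{0}) (h2 : S_tyr) : S_cvl := by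
  intro k K _ _ _ _ D a b c m x hdet hden hX
  obtain ⟨τ, hτ, -⟩ := h2 k K D
  have hτ' : ∀ y : K, tay D y = τ y := fun y => (hτ y).symm
  let F := FractionRing (PowerSeries K)
  let ι : PowerSeries K →+* F := algebraMap (PowerSeries K) F
  have hι : Function.Injective ι := IsFractionRing.injective (PowerSeries K) F
  let f : K →+* F := ι.comp (τ : K →+* PowerSeries K)
  let g : K →+* F := ι.comp (PowerSeries.C (R := K))
  have hf : ∀ y : K, f y = ι (τ y) := fun y => rfl
  have hg : ∀ y : K, g y = ι (PowerSeries.C y) := fun y => rfl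
  have e1 := (h1 F a b (mbMap f m) (fun l => f (x l)) (fun l => g (m.app (x l)))
    (fun l => by rw [mbMap_den]; exact (map_ne_zero f).2 (hden l))).1
  have e2 := (h1 F a b (mbMap g m) (fun l => g (x l)) (fun l => f (x l))
    (fun l => by rw [mbMap_den]; exact (map_ne_zero g).2 (hden l))).2
  simp only [mbMap_den, mbMap_det, mbMap_app] at e1 e2
  -- the identity in the fraction field
  have e3 : bd a b (fun l => f (m.app (x l))) (fun l => g (m.app (x l))) *
      ((∏ l, f (m.den (x l)) ^ a) * ∏ l, g (m.den (x l)) ^ b) =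
      bd a b (fun l => f (x l)) (fun l => g (x l)) *
        (f m.det ^ ((b + 1) * (a * (a + 1) / 2)) * g m.det ^ ((a + 1) * (b * (b + 1) / 2))) := by
    rw [← mul_assoc, e1, mul_assoc, e2]
    ring
  set P' : PowerSeries K := bd a b (fun l => tay D (m.app (x l))) (fun l => PowerSeries.C (m.app (x l))) with hP'
  set P : PowerSeries K := bd a b (fun l => tay D (x l)) (fun l => PowerSeries.C (x l)) with hP
  set U : PowerSeries K := (∏ l, τ (m.den (x l)) ^ a) * ∏ l, PowerSeries.C (m.den (x l)) ^ b with hU
  set W : PowerSeries K := τ m.det ^ ((b + 1) * (a * (a + 1) / 2)) *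
    PowerSeries.C m.det ^ ((a + 1) * (b * (b + 1) / 2)) with hW
  have e4 : P' * U = P * W := by
    apply hι
    rw [map_mul ι P' U, map_mul ι P W, hP', hP, bd_map, bd_map, hU, hW, map_mul, map_mul, map_prod, map_prod]
    simp only [map_pow, hτ']
    exact e3
  have hc : ∀ y : K, PowerSeries.constantCoeff (τ y) = y := by
    intro y
    rw [← hτ', tay_const]
  have hU0 : PowerSeries.constantCoeff U = ∏ l, m.den (x l) ^ (a + b) := by
    rw [hU, map_mul, map_prod, map_prod, ← Finset.prod_mul_distrib]
    refine Finset.prod_congr rfl (fun l _ => ?_)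
    rw [map_pow, map_pow, hc, PowerSeries.constantCoeff_C, pow_add]
  have hU1 : PowerSeries.constantCoeff U ≠ 0 := by
    rw [hU0]
    exact Finset.prod_ne_zero_iff.2 (fun l _ => pow_ne_zero _ (hden l))
  have hUu : IsUnit U := by
    rw [PowerSeries.isUnit_iff_constantCoeff]
    exact isUnit_iff_ne_zero.2 hU1
  have hW0 : PowerSeries.constantCoeff W =
      m.det ^ ((b + 1) * (a * (a + 1) / 2) + (a + 1) * (b * (b + 1) / 2)) := by
    rw [hW, map_mul, map_pow, map_pow, hc, PowerSeries.constantCoeff_C, pow_add]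
  have hd : (PowerSeries.X : PowerSeries K) ^ c ∣ P' := by
    have : (PowerSeries.X : PowerSeries K) ^ c ∣ P' * U := by
      rw [e4]
      exact dvd_mul_of_dvd_left hX W
    exact (hUu.dvd_mul_right).1 this
  refine ⟨hd, ?_⟩
  have e5 := congrArg (PowerSeries.coeff c) e4
  rw [coeff_of_dvd c P' U hd, coeff_of_dvd c P W hX, hU0, hW0] at e5
  rw [e5, mul_comm]

end Pool.Agent.Q182.GT
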